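import Pool.Agent.Lib.MP_4d8c35_co.Low.Cutp

/-! Counting lines and nodes, and the final estimate. -/

set_option autoImplicit false

namespace Pool.Agent.Lib.MP_4d8c35_co.Low

open Function Fintype

theorem card_pair (s : ℕ) : s * s ≤ card (Pair s) * 2 + s := by
  have := card_le_of_surjective (α := Pair s × Bool ⊕ Fin s)
    (Sum.elim (fun p => (sel p.1 p.2, sel p.1 (!p.2))) fun a => (a, a)) (by
      rintro ⟨a, b⟩
      rcases lt_trichotomy a b with h | rfl | h
      · exact ⟨.inl (⟨(a, b), h⟩, false), rfl⟩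
      · exact ⟨.inr a, rfl⟩
      · exact ⟨.inl (⟨(b, a), h⟩, true), rfl⟩)
  simpa using this

theorem card_tm (s L : ℕ) : card (Tm s L) = s ^ (10 * L) := by
  simp only [card_prod, card_fun, card_fin, ← pow_two, ← pow_mul, ← pow_add]
  congr 1
  ring

theorem card_ln_le (s L : ℕ) : card (Ln s L) ≤ card (Tm s L) * card (Tm s L) := by
  rw [← card_prod]
  exact card_le_of_injective (fun l => (out false l, out true l)) fun _ _ h =>
    out_inj (d := true) (congrArg Prod.fst h) (congrArg Prod.snd h)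

theorem card_ln_ge (L : ℕ) (hL : 0 < L) :
    card (Tm (4 * L) L) * card (Tm (4 * L) L) ≤ 2 * card (Ln (4 * L) L) := by
  obtain ⟨s, hs⟩ : ∃ s, s = 4 * L := ⟨_, rfl⟩
  rw [← hs]
  have h1 : (s : ℝ) * s ≤ card (Pair s) * 2 + s := by exact_mod_cast card_pair s
  have hs' : (s : ℝ) = 4 * L := by exact_mod_cast hs
  have hL' : (1 : ℝ) ≤ L := by exact_mod_cast hL
  have h0 : (0 : ℝ) < s := by linarith
  have h2 := one_add_mul_le_pow (a := -(1 / (s : ℝ)))
    (by have := (div_le_one h0).2 (by linarith : (1 : ℝ) ≤ s); linarith) (2 * L)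
  have h3 : (1 : ℝ) + (2 * L : ℕ) * -(1 / s) = 1 / 2 := by
    push_cast
    rw [hs']
    field_simp
    ring
  have h4 : (s * s * (1 + -(1 / (s : ℝ)))) ^ (2 * L) ≤ (card (Pair s) * 2) ^ (2 * L) := by
    have e : s * s * (1 + -(1 / (s : ℝ))) = s * s - s := by
      field_simp
      ring
    rw [e]
    exact pow_le_pow_left₀ (by nlinarith) (by linarith) _
  have h5 : ((s : ℝ) * s) ^ (2 * L) ≤ 2 * (card (Pair s) * 2) ^ (2 * L) := by
    rw [mul_pow _ (1 + _)] at h4
    have : (0 : ℝ) ≤ (s * s) ^ (2 * L) := by positivity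
    nlinarith
  have h6 : (s * s) ^ (2 * L) ≤ 2 * (card (Pair s) * 2) ^ (2 * L) := by exact_mod_cast h5
  have e1 : card (Tm s L) = (s * s) ^ L * card (Tg s L) := by
    rw [card_prod, card_fun, card_prod, card_fin, card_fin]
  have e2 : card (Ln s L) = (card (Pair s) * 2) ^ (2 * L) * (card (Tg s L) * card (Tg s L)) := by
    rw [card_prod, card_prod, card_prod (Tg s L), card_fun, card_fun, card_prod, card_prod,
      card_bool, card_fin, ← mul_assoc, ← mul_pow, pow_mul]
    congr 2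
    ring
  rw [e1, e2, mul_mul_mul_comm, ← pow_add, ← two_mul, ← mul_assoc 2]
  exact Nat.mul_le_mul_right _ h6

theorem card_nd {s : ℕ} [NeZero s] (p0 : Pair s) (L : ℕ) :
    L * card (Ln s L) ≤ card (Nd s L) * 4 ∧ card (Nd s L) ≤ L * card (Ln s L) := by
  constructor
  · have := card_le_of_injective (fun p : Fin L × Ln s L => (nd p0 p.1 p.2, p.2.2.1 p.1)) (by
      rintro ⟨i, l⟩ ⟨j, k⟩ h
      obtain ⟨rfl, h1⟩ := nd_eq (congrArg Prod.fst h)
      exact Prod.ext rfl (nu_eq h1 (congrArg Prod.snd h)))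
    rwa [card_prod, card_fin, card_prod (Nd s L), card_prod Bool, card_bool] at this
  · have := card_subtype_le fun p : Fin L × Ln s L => p.2.2.1 p.1 = (false, false)
    rwa [card_prod, card_fin] at this

theorem est {L K n : ℕ} (hL : 0 < L) (hK : K = (4 * L) ^ (10 * L)) (h1 : L * (K * K) ≤ 4 * n)
    (h2 : n ≤ 2 * L * (K * K) + 2 * K + 4) (h3 : K ≤ n) :
    (K : ℝ) + 1 ≤ 19 * √(n * Real.log (Real.log n) / Real.log n) := by
  have hL' : (1 : ℝ) ≤ L := by exact_mod_cast hL
  have hK1 : 1 ≤ K := hK ▸ Nat.one_le_pow _ _ (by omega)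
  have hK' : (1 : ℝ) ≤ K := by exact_mod_cast hK1
  have a1 : n ≤ (4 * L) ^ (22 * L) := by
    have b1 : 1 ≤ L * (K * K) := Nat.mul_pos hL (Nat.mul_pos hK1 hK1)
    have b2 : K ≤ L * (K * K) := (Nat.le_mul_self K).trans (Nat.le_mul_of_pos_left _ hL)
    have b3 : (4 * L) ^ 2 ≤ (4 * L) ^ (2 * L) := Nat.pow_le_pow_right (by omega) (by omega)
    have b4 : (4 * L) ^ (22 * L) = (4 * L) ^ (2 * L) * (K * K) := by
      rw [hK, ← pow_add, ← pow_add]
      congr 1
      ring
    have b5 : 8 * L * (K * K) ≤ (4 * L) ^ (2 * L) * (K * K) :=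
      Nat.mul_le_mul_right _ (le_trans (by nlinarith) b3)
    nlinarith
  have a2 : (1 : ℝ) ≤ Real.log (4 * L) := by
    rw [Real.le_log_iff_exp_le (by positivity)]
    linarith [Real.exp_one_lt_d9]
  have a3 : Real.log n ≤ 22 * L * Real.log (4 * L) := by
    have b : (n : ℝ) ≤ (4 * L) ^ (22 * L) := by exact_mod_cast a1
    have := Real.log_le_log (by exact_mod_cast hK1.trans h3) b
    rw [Real.log_pow] at this
    exact_mod_cast this
  have a4 : 4 * (L : ℝ) ≤ Real.log n := by
    have b : ((4 : ℝ) * L) ^ (10 * L) ≤ n := by exact_mod_cast hK ▸ h3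
    have := Real.log_le_log (by positivity) b
    rw [Real.log_pow] at this
    push_cast at this
    nlinarith
  have a5 := Real.log_le_log (by positivity) a4
  have h1' : (L : ℝ) * (K * K) ≤ 4 * n := by exact_mod_cast h1
  have a6 : (K : ℝ) * K / 88 ≤ n * Real.log (Real.log n) / Real.log n := by
    rw [div_le_div_iff₀ (by norm_num) (by linarith)]
    have b1 : (K : ℝ) * K * Real.log n ≤ K * K * (22 * L * Real.log (Real.log n)) :=
      mul_le_mul_of_nonneg_left (a3.trans (mul_le_mul_of_nonneg_left a5 (by positivity)))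
        (by positivity)
    have b2 := mul_le_mul_of_nonneg_right h1' (by linarith : 0 ≤ Real.log (Real.log n))
    linarith
  have a7 : 2 * (K : ℝ) / 19 ≤ √(n * Real.log (Real.log n) / Real.log n) :=
    Real.le_sqrt_of_sq_le (by nlinarith)
  linarith

end Pool.Agent.Lib.MP_4d8c35_co.Low
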