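import Pool.Agent.Lib.MP_4d8c35_co.Low.Fly

/-! The twisted butterfly network has the cut property in both directions. -/

set_option autoImplicit false

namespace Pool.Agent.Lib.MP_4d8c35_co.Low

open Function Relation

variable {s L : ℕ} [NeZero s] (p0 : Pair s) (d : Bool)

/-- Arcs: consecutive nodes of a line. -/
def ar (u v : Nd s L) : Prop :=
  ∃ (l : Ln s L) (p q : Fin L), (q : ℕ) = p + 1 ∧ u = nd p0 (po d p) l ∧ v = nd p0 (po d q) l

/-- The last node of a line is joined to its end. -/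
def en (x : Tm s L) (v : Nd s L) : Prop :=
  ∃ (l : Ln s L) (p : Fin L), (p : ℕ) + 1 = L ∧ v = nd p0 (po d p) l ∧ out d l = x

/-- The two ends of a line. -/
def dm (x w : Tm s L) : Prop := ∃ l : Ln s L, out (!d) l = x ∧ out d l = w

/-- The nodes that reach `w` and avoid `z`. -/
def Re (z : Nd s L) (w : Tm s L) (v : Nd s L) : Prop :=
  ∃ (p : Fin L) (π : ℕ → Ln s L), v = nd p0 (po d p) (π p) ∧ Va p0 d p π ∧
    (∀ q : Fin L, (p : ℕ) ≤ q → nd p0 (po d q) (π q) ≠ z) ∧ out d (π L) = w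

variable {p0 d}

theorem Re.of {z v : Nd s L} {w : Tm s L} (h : Re p0 d z w v) {p : Fin L} {l : Ln s L}
    (hv : v = nd p0 (po d p) l) : ∃ π : ℕ → Ln s L, (∀ n : ℕ, n ≤ p → π n = l) ∧ Va p0 d p π ∧
      (∀ q : Fin L, (p : ℕ) ≤ q → nd p0 (po d q) (π q) ≠ z) ∧ out d (π L) = w := by
  obtain ⟨p', π, h1, h2, h3, h4⟩ := h
  obtain ⟨a1, a2⟩ := nd_eq (hv.symm.trans h1)
  obtain rfl := po_inj a1
  refine ⟨fun n => if n ≤ p then l else π n, fun n hn => if_pos hn, fun q hq => ?_, fun q hq => ?_,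
    by simpa [show ¬ L ≤ (p : ℕ) by omega] using h4⟩
  · dsimp only
    rw [if_neg (by omega : ¬ (q : ℕ) + 1 ≤ p), ← h2 q hq]
    split_ifs with e
    · obtain rfl : q = p := Fin.ext (by omega)
      exact a2
    · rfl
  · dsimp only
    split_ifs with e
    · obtain rfl : q = p := Fin.ext (by omega)
      rw [← hv, h1]
      exact h3 q hq
    · exact h3 q hq

theorem anc {u z : Nd s L} (h : ReflTransGen (ar p0 d) u z) :
    po d u.1.1 ≤ po d z.1.1 ∧ u.1.2.1 = z.1.2.1 ∧
      ∀ q : Fin L, q < po d u.1.1 → u.1.2.2.1 (po d q) = z.1.2.2.1 (po d q) := by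
  induction h using ReflTransGen.head_induction_on with
  | refl => exact ⟨le_rfl, rfl, fun _ _ => rfl⟩
  | head h _ ih =>
    obtain ⟨l, p, q, h1, rfl, rfl⟩ := h
    simp only [nd, nu, po_po] at ih ⊢
    have h2 : p < q := by rw [Fin.lt_def]; omega
    refine ⟨h2.le.trans ih.1, ih.2.1, fun r hr => ?_⟩
    rw [← ih.2.2 r (hr.trans h2), update_of_ne fun e => hr.ne (po_inj e),
      update_of_ne fun e => (hr.trans h2).ne (po_inj e)]

theorem nd_ln (z : Nd s L) (σ : St) : nd p0 z.1.1 (ln p0 z.1.1 σ z.1.2) = z :=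
  Subtype.ext (Prod.ext rfl (nu_ln p0 σ z.2))

theorem four (z u : Nd s L) : ∃ σ, ¬ Re p0 d z (out d (ln p0 z.1.1 σ z.1.2)) u := by
  by_contra hn
  push Not at hn
  obtain ⟨⟨i, k⟩, hz⟩ := z
  obtain ⟨j, rfl⟩ : ∃ j, i = po d j := ⟨po d i, (po_po d i).symm⟩
  obtain ⟨p, π0, hu, -⟩ := hn (false, false)
  choose π h1 h2 h3 h4 using fun σ => (hn σ).of hu
  simp only at hz h4
  have m1 : ∀ σ, (π σ L).1 = (π0 p).1 := fun σ => by
    rw [((h2 σ).keep le_rfl p.2.le le_rfl).1, h1 σ p le_rfl]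
  have l1 : ∀ σ i, lt d ((π0 p).1 i) ((π σ L).2.1 i) = lt d (k.1 i) (update k.2.1 (po d j) σ i) :=
    fun σ i => by rw [← m1 σ]; exact congrFun (congrArg Prod.fst (h4 σ)) i
  have o1 : ∀ σ, (π σ L).2.1 (po d j) = σ := fun σ => by
    have a1 := l1 (false, false) (po d j)
    have a2 := l1 (true, true) (po d j)
    have a3 := l1 σ (po d j)
    simp only [update_self] at a1 a2 a3
    have e : xor d true = !(xor d false) := by cases d <;> rfl
    have b1 := (sel_two (congrArg Prod.fst a1) ((congrArg Prod.fst a2).trans (by rw [← e]; rfl))).2.1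
    have b2 := (sel_two (congrArg Prod.snd a1) ((congrArg Prod.snd a2).trans (by rw [← e]; rfl))).2.1
    rw [Prod.ext b1 b2] at a3
    exact lt_inj a3
  have o2 : ∀ σ i, i ≠ po d j → (π (false, false) L).2.1 i = (π σ L).2.1 i := fun σ i hi =>
    lt_inj (by rw [l1, l1, update_of_ne hi, update_of_ne hi])
  have hp : (p : ℕ) ≤ j := by
    by_contra hlt
    have a := fun σ => (o1 σ).symm.trans (((h2 σ).keep le_rfl p.2.le le_rfl).2 j (Or.inl (by omega)))
    have := (a (false, false)).trans ((by rw [h1 _ p le_rfl, h1 _ p le_rfl]) : _ = _)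
      |>.trans (a (true, true)).symm
    cases this
  obtain ⟨b, hb⟩ : ∃ b, b = nu p0 (po d j) (π (false, false) j) := ⟨_, rfl⟩
  have hb0 : b.2.1 (po d j) = (false, false) := by simp [hb, nu]
  have e1 : ∀ σ, π σ (j + 1) = ln p0 (po d j) σ b := fun σ => by
    have a1 : π (false, false) j = π σ j := (h2 _).same (h2 σ)
      (by rw [h1 _ p le_rfl, h1 _ p le_rfl]) hp j.2.le
      fun q _ hq => o2 σ _ fun e => by rw [po_inj e] at hq; exact lt_irrefl _ hq
    refine nu_eq (j := po d j) (by rw [nu_ln p0 σ hb0, hb, a1, h2 σ j hp]) ?_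
    rw [← (h2 σ).last j hp, o1]
    simp [ln]
  have v2 : ∀ σ, Va p0 d (j + 1) (π σ) := fun σ q hq => h2 σ q (by omega)
  have z0 : ∀ x : Ln s L, be p0 (po d j) x.1 (update x.2.1 (po d j) (false, false)) = 0 := by
    simp [be]
  have r1 : ∀ σ, σ ≠ (true, false) → pr d (be p0 (po d j) b.1 (update b.2.1 (po d j) σ)) =
      pr d (be p0 (po d j) k.1 (update k.2.1 (po d j) σ)) := fun σ hσ => by
    obtain ⟨-, -, t, a1, a2⟩ := Rl.last (v := pr d (be p0 (po d j) b.1 (update b.2.1 (po d j) σ)))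
      (v2 (false, false)) (v2 σ) (by
        rw [e1, e1]
        exact ⟨rfl, fun i hi => by simp [ln, hi], _, rfl, by simp [ln, sw, hσ, z0]⟩) (o2 σ)
    have a3 := congrArg Prod.snd (h4 σ)
    have a4 := congrArg Prod.snd (h4 (false, false))
    have a5 := congrArg Prod.fst a2
    have a6 := congrArg Prod.snd a2
    rw [← a1]
    congr 1
    have a7 := z0 k
    cases d <;> simp [out, ln, sw, hσ, a7] at a3 a4 a5 a6
    · rw [← a5, a3, a4, add_sub_cancel_left]
    · rw [← a6, a3, a4, add_sub_cancel_left]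
  have m2 : b.1 = k.1 := funext fun i => by
    have := congrFun (r1 (false, true) (by simp)) i
    simp only [pr_be, update_self, if_true, Prod.mk.injEq] at this
    exact Prod.ext (Subtype.ext this.1) (Subtype.ext this.2)
  have m3 : (π0 p).1 = k.1 := by
    rw [← m1 (false, false), ((v2 _).keep le_rfl j.2 le_rfl).1, e1]
    exact m2
  have o3 : ∀ σ i, (π σ L).2.1 i = update k.2.1 (po d j) σ i := fun σ i =>
    lt_inj (by rw [← l1, m3])
  have e2 : ∀ σ, π σ L = ln p0 (po d j) σ b := fun σ =>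
    (v2 σ).same (π' := fun _ => ln p0 (po d j) σ b) (fun _ _ => rfl) (e1 σ) j.2 le_rfl
      fun q hq _ => by
        have hq' : j < q := hq
        have hne : po d q ≠ po d j := fun e => hq'.ne' (po_inj e)
        have := congrFun (r1 (true, true) (by simp)) (po d q)
        simp [pr_be, po_po, hq', hne] at this
        simp [o3, ln, hne, lt_inj this]
  have e3 : b = k := by
    refine Prod.ext m2 (Prod.ext (funext fun i => ?_) ?_)
    · have := o3 (false, false) i
      rw [e2] at this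
      by_cases e : i = po d j
      · rw [e, hb0, hz]
      · simpa [ln, e] using this
    · have a3 := congrArg Prod.snd (h4 (true, false))
      have a4 := congrArg Prod.snd (h4 (false, false))
      rw [e2] at a3 a4
      cases d <;> simp [out, ln, sw, be] at a3 a4 <;> exact Prod.ext (by assumption) (by assumption)
  exact h3 (false, false) j hp (Subtype.ext (Prod.ext rfl (hb.symm.trans e3)))

theorem cut : Cut (ar (L := L) p0 d) (en p0 (!d)) (en p0 d) (dm d) := fun z => by
  have hi : ∀ e : Bool, Injective fun σ => out e (ln p0 z.1.1 σ z.1.2) := fun e σ σ' h => by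
    have := congrFun (congrArg Prod.fst h) z.1.1
    simp only [out, ln, update_self] at this
    exact lt_inj this
  refine ⟨_, _, fun σ => Re p0 d z (out d (ln p0 z.1.1 σ z.1.2)), hi (!d), hi d,
    fun σ => ⟨_, rfl, rfl⟩, ?_, ?_, ?_, ?_, four z⟩
  · rintro σ u v ⟨l, p, q, h1, rfl, hv⟩ hu h
    obtain ⟨π, a1, a2, a3, a4⟩ := h.of hv
    refine ⟨p, π, by rw [a1 p (by omega)], fun r hr => ?_, fun r hr => ?_, a4⟩
    · by_cases e : (q : ℕ) ≤ r
      · exact a2 r e
      · rw [a1 r (by omega), a1 (r + 1) (by omega)]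
    · by_cases e : (q : ℕ) ≤ r
      · exact a3 r e
      · obtain rfl : r = p := Fin.ext (by omega)
        rwa [a1 r (by omega)]
  · rintro σ v ⟨l, p, h1, rfl, h2⟩ hv
    refine ⟨p, fun _ => l, rfl, fun _ _ => rfl, fun q hq => ?_, h2⟩
    obtain rfl : q = p := Fin.ext (by omega)
    exact hv
  · rintro σ v ⟨l, p, h1, hv, h2⟩ h
    have e : po (!d) p = po d p.rev := by cases d <;> simp [po]
    have e0 : (p.rev : ℕ) = 0 := by simp; omega
    obtain ⟨π, a1, a2, a3, a4⟩ := h.of (e ▸ hv)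
    rw [e0] at a1 a2 a3
    have m1 : (π L).1 = l.1 := by rw [(a2.keep le_rfl (Nat.zero_le _) le_rfl).1, a1 0 le_rfl]
    have b1 : ∀ n, n ≤ L → π n = l := fun n hn =>
      a2.same (π' := fun _ => l) (fun _ _ => rfl) (a1 0 le_rfl) (Nat.zero_le _) hn fun q _ _ =>
        (lt_two (congrFun (congrArg Prod.fst h2) (po d q))
          (m1 ▸ congrFun (congrArg Prod.fst a4) (po d q))).1
    refine a3 (po d z.1.1) (Nat.zero_le _) ?_
    rw [b1 _ (po d z.1.1).2.le, po_po, out_inj h2 (b1 L le_rfl ▸ a4), nd_ln]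
  · intro σ u h
    induction h using ReflTransGen.head_induction_on with
    | refl => exact fun ⟨p, π, a1, _, a3, _⟩ => a3 p le_rfl a1.symm
    | head h h' ih =>
      obtain ⟨l, p, q, h1, hu, rfl⟩ := h
      obtain ⟨c1, c2, c3⟩ := anc h'
      simp only [nd, nu, po_po] at c1 c2 c3
      have h2 : p < q := by rw [Fin.lt_def]; omega
      refine fun h => ih ?_
      obtain ⟨π, a1, a2, a3, a4⟩ := h.of hu
      have m1 : (π L).1 = l.1 := by rw [(a2.keep le_rfl p.2.le le_rfl).1, a1 p le_rfl]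
      have b1 : π q = l := by
        rw [h1]
        refine nu_eq (j := po d p) (by rw [← a2 p le_rfl, a1 p le_rfl]) ?_
        have b2 := congrFun (congrArg Prod.fst a4) (po d p)
        simp only [out, ln, m1, c2] at b2
        rw [← a2.last p le_rfl, lt_inj b2, update_of_ne, ← c3 p h2,
          update_of_ne fun e => h2.ne (po_inj e)]
        intro e
        rw [← e, po_po] at c1
        exact h2.not_ge c1
      exact ⟨q, π, by rw [b1], fun r hr => a2 r (by omega), fun r hr => a3 r (by omega), a4⟩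

theorem ar_swap : swap (ar (L := L) p0 true) = ar p0 false := by
  ext u v
  constructor <;> rintro ⟨l, p, q, h, rfl, rfl⟩ <;>
    exact ⟨l, q.rev, p.rev, by simp; omega, by simp [po], by simp [po]⟩

theorem path (hL : 0 < L) (x w : Tm s L) (h : dm true x w) :
    ∃ u v, en p0 false x u ∧ ReflTransGen (ar p0 true) u v ∧ en p0 true w v := by
  obtain ⟨l, h1, h2⟩ := h
  have : ∀ n (hn : n < L), ReflTransGen (ar p0 true) (nd p0 ⟨0, hL⟩ l) (nd p0 ⟨n, hn⟩ l) := fun n => by
    induction n with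
    | zero => exact fun _ => .refl
    | succ n ih => exact fun hn => (ih (by omega)).tail ⟨l, ⟨n, by omega⟩, ⟨n + 1, hn⟩, rfl, rfl, rfl⟩
  refine ⟨_, _, ⟨l, ⟨L - 1, by omega⟩, by simp; omega, ?_, h1⟩, this (L - 1) (by omega),
    l, ⟨L - 1, by omega⟩, by simp; omega, rfl, h2⟩
  congr 1
  ext
  simp [po]
  omega

end Pool.Agent.Lib.MP_4d8c35_co.Low
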