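import Pool.Agent.Lib.MP_4d8c35_co.Low.Net

/-! A twisted butterfly network: lines, nodes and paths. -/

set_option autoImplicit false

namespace Pool.Agent.Lib.MP_4d8c35_co.Low

open Function

/-- Two letters in increasing order. -/
abbrev Pair (s : ℕ) := {p : Fin s × Fin s // p.1 < p.2}
/-- States of a line at one level. -/
abbrev St := Bool × Bool
/-- The group of codes. -/
abbrev Gm (s : ℕ) := (Fin s × Fin s) × (Fin s × Fin s)
/-- Tags. -/
abbrev Tg (s L : ℕ) := (Fin L → Gm s) × (Fin L → Gm s)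
/-- Lines. -/
abbrev Ln (s L : ℕ) := (Fin L → Pair s × Pair s) × (Fin L → St) × (Tg s L × Tg s L)
/-- Terminals. -/
abbrev Tm (s L : ℕ) := (Fin L → Fin s × Fin s) × Tg s L
/-- Nodes. -/
abbrev Nd (s L : ℕ) := {p : Fin L × Ln s L // p.2.2.1 p.1 = (false, false)}

variable {s L : ℕ}

/-- One of the two letters. -/
def sel (p : Pair s) (b : Bool) : Fin s := if b then p.1.2 else p.1.1

theorem sel_two {p p' : Pair s} {a a' c : Bool} (h1 : sel p a = sel p' a')
    (h2 : sel p c = sel p' (!a')) : c = (!a) ∧ p = p' ∧ a = a' := by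
  obtain ⟨⟨x, y⟩, h⟩ := p
  obtain ⟨⟨x', y'⟩, h'⟩ := p'
  have g : x < y := h
  have g' : x' < y' := h'
  cases a <;> cases a' <;> cases c <;> simp [sel] at h1 h2 ⊢ <;> omega

theorem sel_inj {p : Pair s} {a c : Bool} (h : sel p a = sel p c) : a = c := by
  have g := p.2
  cases a <;> cases c <;> simp [sel] at h ⊢ <;> omega

/-- The letters of a source or a sink at one level. -/
def lt (d : Bool) (b : Pair s × Pair s) (σ : St) : Fin s × Fin s :=
  (sel b.1 (xor d σ.1), sel b.2 (xor d σ.2))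

theorem lt_two {d : Bool} {b b' : Pair s × Pair s} {σ σ' τ : St} (h1 : lt (!d) b σ = lt (!d) b' σ')
    (h2 : lt d b τ = lt d b' σ') : τ = σ ∧ b = b' ∧ σ = σ' := by
  obtain ⟨σ1, σ2⟩ := σ
  obtain ⟨σ1', σ2'⟩ := σ'
  obtain ⟨τ1, τ2⟩ := τ
  simp only [lt, Prod.mk.injEq] at h1 h2
  have e : ∀ x : Bool, xor d x = !(xor (!d) x) := by cases d <;> simp
  obtain ⟨a1, a2, a3⟩ := sel_two h1.1 (h2.1.trans (by rw [e]))
  obtain ⟨b1, b2, b3⟩ := sel_two h1.2 (h2.2.trans (by rw [e]))
  refine ⟨?_, Prod.ext a2 b2, ?_⟩ <;> cases d <;> simp_all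

theorem lt_inj {d : Bool} {b : Pair s × Pair s} {σ σ' : St} (h : lt d b σ = lt d b σ') : σ = σ' := by
  have h1 := sel_inj (congrArg Prod.fst h)
  have h2 := sel_inj (congrArg Prod.snd h)
  exact Prod.ext (by simpa using h1) (by simpa using h2)

/-- Position of a level, in the direction `d`. -/
def po (d : Bool) (i : Fin L) : Fin L := if d then i else i.rev

theorem po_po (d : Bool) (i : Fin L) : po d (po d i) = i := by cases d <;> simp [po]

theorem po_inj {d : Bool} {i j : Fin L} (h : po d i = po d j) : i = j := by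
  rw [← po_po d i, h, po_po]

/-- The half of a tag that sees the later levels. -/
def pr (d : Bool) (t : Tg s L) : Fin L → Gm s := if d then t.1 else t.2

/-- The exchange of the two tags. -/
def sw (σ : St) (τ : Tg s L × Tg s L) : Tg s L × Tg s L := if σ = (true, false) then τ.swap else τ

theorem sw_sw (σ : St) (τ : Tg s L × Tg s L) : sw σ (sw σ τ) = τ := by
  unfold sw
  split_ifs <;> rfl

/-- The source (`false`) and the sink (`true`) of a line. -/
def out (d : Bool) (l : Ln s L) : Tm s L :=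
  (fun i => lt d (l.1 i) (l.2.1 i), if d then l.2.2.2 else l.2.2.1)

theorem out_inj {d : Bool} {l l' : Ln s L} (h1 : out (!d) l = out (!d) l')
    (h2 : out d l = out d l') : l = l' := by
  have h := fun i => lt_two (congrFun (congrArg Prod.fst h1) i) (congrFun (congrArg Prod.fst h2) i)
  have a1 := congrArg Prod.snd h1
  have a2 := congrArg Prod.snd h2
  refine Prod.ext (funext fun i => (h i).2.1) (Prod.ext (funext fun i => (h i).2.2) ?_)
  cases d
  · exact Prod.ext a2 a1
  · exact Prod.ext a1 a2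

variable [NeZero s] (p0 : Pair s)

/-- The shift of the tags. -/
def be (j : Fin L) (m : Fin L → Pair s × Pair s) (o : Fin L → St) : Tg s L :=
  if o j = (false, true) then (fun i => ((m i).1.1, (m i).2.1), fun i => ((m i).1.1, (m i).2.1))
  else if o j = (true, true) then (fun i => if j < i then (lt false (p0, p0) (o i), 0) else 0,
    fun i => if i < j then (lt false (p0, p0) (o i), 0) else 0) else 0

theorem pr_be (d : Bool) (q : Fin L) (m : Fin L → Pair s × Pair s) (o : Fin L → St) (i : Fin L) :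
    pr d (be p0 (po d q) m o) i = if o (po d q) = (false, true) then ((m i).1.1, (m i).2.1)
      else if o (po d q) = (true, true) ∧ q < po d i then (lt false (p0, p0) (o i), 0) else 0 := by
  unfold be
  cases d <;> split_ifs <;> simp_all [pr, po, Fin.lt_rev_iff]

/-- The base line of the node of a line at level `j`. -/
def nu (j : Fin L) (l : Ln s L) : Ln s L :=
  (l.1, update l.2.1 j (false, false),
    sw (l.2.1 j) (l.2.2 - (be p0 j l.1 l.2.1, be p0 j l.1 l.2.1)))

/-- The four lines of a node. -/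
def ln (j : Fin L) (σ : St) (l : Ln s L) : Ln s L :=
  (l.1, update l.2.1 j σ,
    sw σ l.2.2 + (be p0 j l.1 (update l.2.1 j σ), be p0 j l.1 (update l.2.1 j σ)))

/-- The node of a line at level `j`. -/
def nd (j : Fin L) (l : Ln s L) : Nd s L := ⟨(j, nu p0 j l), by simp [nu]⟩

theorem ln_nu (j : Fin L) (l : Ln s L) : ln p0 j (l.2.1 j) (nu p0 j l) = l := by
  simp [ln, nu, sw_sw]

theorem nu_ln {j : Fin L} (σ : St) {l : Ln s L} (h : l.2.1 j = (false, false)) :
    nu p0 j (ln p0 j σ l) = l := by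
  simp [ln, nu, sw_sw, ← h]

variable {p0}

theorem nu_eq {j : Fin L} {l l' : Ln s L} (h : nu p0 j l = nu p0 j l') (h' : l.2.1 j = l'.2.1 j) :
    l = l' := by rw [← ln_nu p0 j l, h, h', ln_nu]

theorem nu_o {j : Fin L} {l l' : Ln s L} (h : nu p0 j l = nu p0 j l') :
    l.1 = l'.1 ∧ ∀ i, i ≠ j → l.2.1 i = l'.2.1 i :=
  ⟨(congrArg Prod.fst h :), fun i hi => by simpa [nu, hi] using congrFun (congrArg (·.2.1) h) i⟩

theorem nd_eq {i j : Fin L} {l l' : Ln s L} (h : nd p0 i l = nd p0 j l') :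
    i = j ∧ nu p0 i l = nu p0 j l' := Prod.ext_iff.1 (congrArg Subtype.val h)

/-- A sequence of lines that only switches at nodes, from position `a` on. -/
def Va (p0 : Pair s) (d : Bool) (a : ℕ) (π : ℕ → Ln s L) : Prop :=
  ∀ q : Fin L, a ≤ q → nu p0 (po d q) (π q) = nu p0 (po d q) (π (q + 1))

variable {d : Bool} {a : ℕ} {π π' : ℕ → Ln s L}

theorem Va.keep (h : Va p0 d a π) {m n : ℕ} (h1 : a ≤ m) (h2 : m ≤ n) (h3 : n ≤ L) :
    (π n).1 = (π m).1 ∧
      ∀ q : Fin L, (q < m ∨ n ≤ q) → (π n).2.1 (po d q) = (π m).2.1 (po d q) := by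
  induction n, h2 using Nat.le_induction with
  | base => exact ⟨rfl, fun _ _ => rfl⟩
  | succ n h2 ih =>
    obtain ⟨a1, a2⟩ := ih (by omega)
    obtain ⟨b1, b2⟩ := nu_o (h ⟨n, h3⟩ (h1.trans h2))
    refine ⟨b1.symm.trans a1, fun q hq => (b2 _ fun e => ?_).symm.trans (a2 q (by omega))⟩
    have := congrArg Fin.val (po_inj e)
    simp only at this
    omega

theorem Va.last (h : Va p0 d a π) (q : Fin L) (hq : a ≤ q) :
    (π L).2.1 (po d q) = (π (q + 1)).2.1 (po d q) :=
  (h.keep (by omega) q.2 le_rfl).2 q (Or.inl (by omega))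

theorem Va.same (h : Va p0 d a π) (h' : Va p0 d a π') (h0 : π a = π' a) {n : ℕ} (h1 : a ≤ n)
    (h2 : n ≤ L) (h3 : ∀ q : Fin L, a ≤ q → q < n → (π L).2.1 (po d q) = (π' L).2.1 (po d q)) :
    π n = π' n := by
  induction n, h1 using Nat.le_induction with
  | base => exact h0
  | succ n h1 ih =>
    have a1 := ih (by omega) fun q b1 b2 => h3 q b1 (by omega)
    have a2 := h ⟨n, h2⟩ h1
    have a3 := h' ⟨n, h2⟩ h1
    refine nu_eq (a2.symm.trans (a1 ▸ a3)) ?_
    exact (h.last ⟨n, h2⟩ h1).symm.trans ((h3 ⟨n, h2⟩ h1 (by simp)).trans (h'.last ⟨n, h2⟩ h1))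

/-- Two lines that differ at position `j` only, with a diagonal difference of tags. -/
def Rl (d : Bool) (j : Fin L) (v : Fin L → Gm s) (l l' : Ln s L) : Prop :=
  l.1 = l'.1 ∧ (∀ i, i ≠ po d j → l.2.1 i = l'.2.1 i) ∧ ∃ t, pr d t = v ∧ l'.2.2 - l.2.2 = (t, t)

theorem Rl.step {j q : Fin L} {v : Fin L → Gm s} {l l' k k' : Ln s L} (h : Rl d j v l l')
    (hq : j < q) (h1 : nu p0 (po d q) l = nu p0 (po d q) k)
    (h2 : nu p0 (po d q) l' = nu p0 (po d q) k') (h3 : k.2.1 (po d q) = k'.2.1 (po d q)) :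
    Rl d j v k k' := by
  obtain ⟨a1, a2, t, rfl, a3⟩ := h
  have hne : po d q ≠ po d j := fun e => hq.ne' (po_inj e)
  have b1 : k.1 = k'.1 := (nu_o h1).1.symm.trans (a1.trans (nu_o h2).1)
  have b2 : ∀ i, i ≠ po d j → k.2.1 i = k'.2.1 i := fun i hi => by
    by_cases e : i = po d q
    · rw [e, h3]
    · rw [← (nu_o h1).2 i e, ← (nu_o h2).2 i e, a2 i hi]
  have b3 : ∀ x y : Ln s L, x.1 = y.1 → (∀ i, i ≠ po d j → x.2.1 i = y.2.1 i) →
      pr d (be p0 (po d q) x.1 x.2.1) = pr d (be p0 (po d q) y.1 y.2.1) := fun x y c1 c2 => by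
    funext i
    rw [pr_be, pr_be, c1, c2 _ hne]
    by_cases e : q < po d i
    · rw [c2 i fun e' => by rw [e', po_po] at e; exact lt_asymm hq e]
    · simp [e]
  refine ⟨b1, b2, t - (be p0 (po d q) l'.1 l'.2.1 - be p0 (po d q) l.1 l.2.1) +
    (be p0 (po d q) k'.1 k'.2.1 - be p0 (po d q) k.1 k.2.1), ?_, ?_⟩
  · have c1 := b3 l l' a1 a2
    have c2 := b3 k k' b1 b2
    cases d <;> simp_all [pr]
  · have c1 := congrArg (·.2.2) h1
    have c2 := congrArg (·.2.2) h2
    simp only [nu] at c1 c2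
    rw [← a2 _ hne, ← h3] at c2
    have c3 := congrArg (sw (k.2.1 (po d q))) c1
    have c4 := congrArg (sw (k.2.1 (po d q))) c2
    rw [sw_sw, eq_sub_iff_add_eq] at c3 c4
    rw [← c3, ← c4, eq_add_of_sub_eq a3]
    unfold sw
    split_ifs <;> ext1 <;> simp <;> abel

theorem Rl.last {j : Fin L} {v : Fin L → Gm s} (h : Va p0 d (j + 1) π) (h' : Va p0 d (j + 1) π')
    (h0 : Rl d j v (π (j + 1)) (π' (j + 1)))
    (h3 : ∀ i, i ≠ po d j → (π L).2.1 i = (π' L).2.1 i) : Rl d j v (π L) (π' L) := by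
  have : ∀ n, (j : ℕ) + 1 ≤ n → n ≤ L → Rl d j v (π n) (π' n) := fun n h1 => by
    induction n, h1 using Nat.le_induction with
    | base => exact fun _ => h0
    | succ n h1 ih =>
      intro h2
      have hq : j < ⟨n, h2⟩ := h1
      exact (ih (by omega)).step hq (h ⟨n, h2⟩ h1) (h' ⟨n, h2⟩ h1)
        ((h.last ⟨n, h2⟩ h1).symm.trans
          ((h3 _ fun e => hq.ne' (po_inj e)).trans (h'.last ⟨n, h2⟩ h1)))
  exact this L j.2 le_rfl

end Pool.Agent.Lib.MP_4d8c35_co.Low
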