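import Mathlib

/-! The graph of a network with sources, sinks and demand pairs, and its stability. -/

set_option autoImplicit false

namespace Pool.Agent.Lib.MP_4d8c35_co.Low

open Sum Relation

variable {Nd X W : Type}

/-- Two vertices for each node, the sources, the sinks and four spare vertices. -/
abbrev Vx (Nd X W : Type) := (Nd × Bool) ⊕ (X ⊕ W ⊕ Fin 4)

/-- A source and a sink that form a demand pair. -/
def Pr (dem : X → W → Prop) (s t : X ⊕ W ⊕ Fin 4) : Prop :=
  ∃ x w, s = inl x ∧ t = inr (inl w) ∧ dem x w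

variable (arc : Nd → Nd → Prop) (fs : X → Nd → Prop) (ls : W → Nd → Prop) (dem : X → W → Prop)

/-- The edges. -/
def rel : Vx Nd X W → Vx Nd X W → Prop
  | inl p, inl q => p.1 = q.1 ∨ (p.2 = true ∧ q.2 = false ∧ arc p.1 q.1)
  | inl p, inr (inl x) => p.2 = false ∧ fs x p.1
  | inl p, inr (inr (inl w)) => p.2 = true ∧ ls w p.1
  | inr s, inr t => ¬ (Pr dem s t ∨ Pr dem t s)
  | _, _ => False

/-- The graph. -/
def gr : SimpleGraph (Vx Nd X W) := SimpleGraph.fromRel (rel arc fs ls dem)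

/-- Four lines through each node, with the sets of nodes that reach their sinks. -/
def Cut : Prop :=
  ∀ z, ∃ (xs : Bool × Bool → X) (ws : Bool × Bool → W) (Q : Bool × Bool → Nd → Prop),
    Function.Injective xs ∧ Function.Injective ws ∧ (∀ σ, dem (xs σ) (ws σ)) ∧
    (∀ σ u v, arc u v → u ≠ z → Q σ v → Q σ u) ∧ (∀ σ v, ls (ws σ) v → v ≠ z → Q σ v) ∧
    (∀ σ v, fs (xs σ) v → ¬ Q σ v) ∧ (∀ σ u, ReflTransGen arc u z → ¬ Q σ u) ∧ ∀ u, ∃ σ, ¬ Q σ u

/-- An independent set with one vertex more than there are nodes misses `Z`. -/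
def Good (Z : Finset (Vx Nd X W)) : Prop :=
  ∃ e : Option Nd → Vx Nd X W, Function.Injective e ∧ (∀ o, e o ∉ Z) ∧
    ∀ o o', ¬ (gr arc fs ls dem).Adj (e o) (e o')

variable {arc fs ls dem}

theorem up [Fintype Nd] [Fintype X] [Fintype W]
    (hp : ∀ x w, dem x w → ∃ u v, fs x u ∧ ReflTransGen arc u v ∧ ls w v) :
    (gr arc fs ls dem).indepNum ≤ Fintype.card Nd + 1 := by
  classical
  obtain ⟨I, hI, hc⟩ := (gr arc fs ls dem).exists_isNIndepSet_indepNum
  have h0 : ∀ v ∈ I, ∀ w ∈ I, rel arc fs ls dem v w → v = w := fun v hv w hw h => by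
    by_contra hne
    exact hI hv hw hne ((SimpleGraph.fromRel_adj _ _ _).2 ⟨hne, Or.inl h⟩)
  obtain ⟨g, g1, g2⟩ : ∃ g : X ⊕ W ⊕ Fin 4 → Option Nd,
      (∀ s t, inr s ∈ I → inr t ∈ I → g s = g t → s = t) ∧
      ∀ t v b, g t = some v → inl (v, b) ∉ I := by
    by_cases h : ∃ x w, dem x w ∧ inr (inl x) ∈ I ∧ inr (inr (inl w)) ∈ I
    · obtain ⟨x, w, hd, hx, hw⟩ := h
      obtain ⟨u, v, h1, h2, h3⟩ := hp x w hd
      have h4 : (∃ c, ∀ b, inl (c, b) ∉ I) ∨ inl (v, false) ∉ I := by
        clear h3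
        induction h2 with
        | refl => exact Or.inr fun h => by cases h0 _ h _ hx ⟨rfl, h1⟩
        | @tail b c _ h5 ih =>
          refine ih.elim Or.inl fun h6 => ?_
          by_cases h7 : inl (b, true) ∈ I
          · exact Or.inr fun h => by cases h0 _ h7 _ h (Or.inr ⟨rfl, rfl, h5⟩)
          · exact Or.inl ⟨b, fun e => by cases e <;> assumption⟩
      obtain ⟨c, hc⟩ : ∃ c, ∀ b, inl (c, b) ∉ I := h4.elim id fun h5 => ⟨v, fun b => by
        cases b
        · exact h5
        · exact fun h => by cases h0 _ h _ hw ⟨rfl, h3⟩⟩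
      have h5 : ∀ t, inr t ∈ I → t ≠ inr (inl w) → t = inl x := fun t ht hne => by
        by_contra hn
        have a1 : Pr dem t (inl x) ∨ Pr dem (inl x) t := by
          by_contra h
          exact hn (inr.inj (h0 _ ht _ hx h))
        have a2 : Pr dem t (inr (inl w)) ∨ Pr dem (inr (inl w)) t := by
          by_contra h
          exact hne (inr.inj (h0 _ ht _ hw h))
        rcases a1 with ⟨_, _, -, h, -⟩ | ⟨_, _, -, rfl, -⟩
        · cases h
        · rcases a2 with ⟨_, _, h, -⟩ | ⟨_, _, h, -⟩ <;> cases h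
      refine ⟨fun t => if t = inr (inl w) then some c else none, fun s t hs ht h => ?_,
        fun t v b h => ?_⟩
      · by_cases a1 : s = inr (inl w) <;> by_cases a2 : t = inr (inl w)
        · rw [a1, a2]
        · simp [a1, a2] at h
        · simp [a1, a2] at h
        · rw [h5 s hs a1, h5 t ht a2]
      · dsimp only at h
        split_ifs at h
        cases h
        exact hc b
    · refine ⟨fun _ => none, fun s t hs ht _ => inr.inj (h0 _ hs _ ht ?_), fun _ _ _ h => by cases h⟩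
      rintro (⟨x, w, rfl, rfl, hd⟩ | ⟨x, w, rfl, rfl, hd⟩)
      · exact h ⟨x, w, hd, hs, ht⟩
      · exact h ⟨x, w, hd, ht, hs⟩
  rw [← hc, ← Fintype.card_option, ← Finset.card_univ]
  refine Finset.card_le_card_of_injOn (Sum.elim (fun p => some p.1) g)
    (fun _ _ => Finset.mem_coe.2 (Finset.mem_univ _)) ?_
  rintro (p | s) hp (q | t) hq h
  · exact h0 _ hp _ hq (Or.inl (Option.some.inj h))
  · exact (g2 t p.1 p.2 h.symm hp).elim
  · exact (g2 s q.1 q.2 h hq).elim
  · rw [g1 s t hp hq h]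

theorem good0 (Z : Finset (Vx Nd X W)) (P : Nd → Prop) (d : Fin 4)
    (h1 : ∀ u v, arc u v → P u → P v) (h2 : inr (inr (inr d)) ∉ Z)
    (h3 : ∀ v, P v → inl (v, true) ∉ Z) (h4 : ∀ v, ¬ P v → inl (v, false) ∉ Z) :
    Good arc fs ls dem Z := by
  classical
  refine ⟨fun o => o.elim (inr (inr (inr d))) fun v => inl (v, decide (P v)), ?_, ?_, ?_⟩
  · rintro (_ | u) (_ | v) h <;> simp_all
  · rintro (_ | v)
    · exact h2
    · by_cases h : P v
      · simpa [h] using h3 v h
      · simpa [h] using h4 v h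
  · rintro (_ | u) (_ | v) <;> simp only [gr, SimpleGraph.fromRel_adj, Option.elim, rel]
    · simp
    · simp
    · simp
    · have a1 := h1 u v
      have a2 := h1 v u
      rintro ⟨h, (rfl | h') | (rfl | h')⟩ <;> simp_all

theorem good2 (Z : Finset (Vx Nd X W)) (P : Nd → Prop) (c : Nd) (x : X) (w : W) (hd : dem x w)
    (h1 : ∀ u v, arc u v → u ≠ c → v ≠ c → P u → P v) (hx : ∀ v, fs x v → v ≠ c → P v)
    (hw : ∀ v, ls w v → v ≠ c → ¬ P v) (h2 : inr (inl x) ∉ Z) (h2' : inr (inr (inl w)) ∉ Z)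
    (h3 : ∀ v, v ≠ c → P v → inl (v, true) ∉ Z) (h4 : ∀ v, v ≠ c → ¬ P v → inl (v, false) ∉ Z) :
    Good arc fs ls dem Z := by
  classical
  have hp : Pr dem (inl x) (inr (inl w)) := ⟨x, w, rfl, rfl, hd⟩
  refine ⟨fun o => o.elim (inr (inl x)) fun v =>
    if v = c then inr (inr (inl w)) else inl (v, decide (P v)), ?_, ?_, ?_⟩
  · rintro (_ | u) (_ | v) h <;> simp only [Option.elim] at h <;> (try split_ifs at h) <;> simp_all
  · rintro (_ | v)
    · exact h2
    · by_cases hc : v = c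
      · simpa [hc] using h2'
      · by_cases h : P v
        · simpa [h, hc] using h3 v hc h
        · simpa [h, hc] using h4 v hc h
  · rintro (_ | u) (_ | v) <;> simp only [gr, SimpleGraph.fromRel_adj, Option.elim]
    · simp
    · split_ifs with b1
      · simp [rel, hp]
      · simpa [rel] using fun a b => a (hx v b b1)
    · split_ifs with b1
      · simp [rel, hp]
      · simpa [rel] using fun a b => a (hx u b b1)
    · have a1 := h1 u v
      have a2 := h1 v u
      split_ifs with b1 b2 b2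
      · simp
      · simpa [rel] using fun a b => hw v b b2 a
      · simpa [rel] using fun a b => hw u b b1 a
      · simp only [rel]
        rintro ⟨h, (rfl | h') | (rfl | h')⟩ <;> simp_all

theorem good (hF : Cut arc fs ls dem) (hB : Cut (Function.swap arc) ls fs (Function.swap dem))
    (Z : Finset (Vx Nd X W)) (hZ : Z.card ≤ 3) : Good arc fs ls dem Z := by
  classical
  by_cases h : ∃ u z, inl (u, false) ∈ Z ∧ inl (z, true) ∈ Z ∧ ReflTransGen arc u z
  swap
  · obtain ⟨d, hd⟩ : ∃ d : Fin 4, inr (inr (inr d)) ∉ Z := by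
      by_contra hn
      push Not at hn
      have := Finset.card_le_card_of_injOn (s := Finset.univ) (t := Z)
        (fun d : Fin 4 => inr (inr (inr d))) (fun d _ => hn d) fun _ _ _ _ h => by simpa using h
      simp at this
      omega
    exact good0 Z (fun v => ∃ u, inl (u, false) ∈ Z ∧ ReflTransGen arc u v) d
      (fun u v h1 ⟨a, h2, h3⟩ => ⟨a, h2, h3.tail h1⟩) hd
      (fun v ⟨u, h1, h2⟩ h3 => h ⟨u, v, h1, h3, h2⟩) fun v h1 h2 => h1 ⟨v, h2, .refl⟩
  obtain ⟨u, z, hu, hz, huz⟩ := h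
  obtain ⟨e, he⟩ : ∃ e, ∀ v ∈ Z, v = inl (u, false) ∨ v = inl (z, true) ∨ v = e := by
    have h1 : ((Z.erase (inl (u, false))).erase (inl (z, true))).card ≤ 1 := by
      rw [Finset.card_erase_of_mem (by simp [hz]), Finset.card_erase_of_mem hu]
      omega
    obtain ⟨e, he⟩ := Finset.card_le_one_iff_subset_singleton.1 h1
    refine ⟨e, fun v hv => ?_⟩
    by_contra hn
    push Not at hn
    exact hn.2.2 (Finset.mem_singleton.1 (he (by simp [hv, hn.1, hn.2.1])))
  by_cases h1 : ∃ z', e = inl (z', true)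
  · obtain ⟨z', rfl⟩ := h1
    obtain ⟨ws, xs, Q, -, -, a1, a2, a3, a4, a5, a6⟩ := hB u
    obtain ⟨σ, hσ⟩ := a6 z'
    refine good2 Z (Q σ) u (xs σ) (ws σ) (a1 σ) (fun a b h _ hb => a2 σ b a h hb) (a3 σ)
      (fun v h _ => a4 σ v h) (fun h => by simpa using he _ h) (fun h => by simpa using he _ h)
      (fun v _ hq h => ?_) fun v hv _ h => hv (by simpa using he _ h)
    rcases (by simpa using he _ h : v = z ∨ v = z') with rfl | rfl
    · exact a5 σ v huz.swap hq
    · exact hσ hq
  · obtain ⟨xs, ws, Q, i1, i2, a1, a2, a3, a4, a5, a6⟩ := hF z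
    obtain ⟨σ, b1, b2, b3⟩ : ∃ σ, inr (inl (xs σ)) ≠ e ∧ inr (inr (inl (ws σ))) ≠ e ∧
        ∀ v, inl (v, false) = e → ¬ Q σ v := by
      rcases e with ⟨v, b⟩ | t
      · obtain ⟨σ, hσ⟩ := a6 v
        exact ⟨σ, by simp, by simp, fun _ h => by cases h; exact hσ⟩
      · by_cases h2 : inl (xs (false, false)) = t ∨ inr (inl (ws (false, false))) = t
        · refine ⟨(true, true), ?_, ?_, by simp⟩ <;> rcases h2 with rfl | rfl <;>
            simp [i1.eq_iff, i2.eq_iff]
        · push Not at h2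
          exact ⟨(false, false), by simpa using h2.1, by simpa using h2.2, by simp⟩
    refine good2 Z (fun v => ¬ Q σ v) z (xs σ) (ws σ) (a1 σ)
      (fun a b h ha _ h3 h4 => h3 (a2 σ a b h ha h4)) (fun v h _ => a4 σ v h)
      (fun v h hv h3 => h3 (a3 σ v h hv)) (fun h => b1 (by simpa using he _ h))
      (fun h => b2 (by simpa using he _ h)) (fun v hv _ h => ?_) fun v _ hq h => hq ?_
    · rcases he _ h with h | h | h
      · cases h
      · cases h
        exact hv rfl
      · exact h1 ⟨v, h.symm⟩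
    · rcases he _ h with h | h | h
      · cases h
        exact a5 σ _ huz
      · cases h
      · exact b3 v h

theorem Good.le [Fintype Nd] [Fintype X] [Fintype W] {Z : Finset (Vx Nd X W)}
    (h : Good arc fs ls dem Z) :
    Fintype.card Nd + 1 ≤ ((gr arc fs ls dem).induce (Z : Set (Vx Nd X W))ᶜ).indepNum ∧
      Fintype.card Nd + 1 ≤ (gr arc fs ls dem).indepNum := by
  classical
  obtain ⟨e, h1, h2, h3⟩ := h
  rw [← Fintype.card_option, ← Finset.card_univ]
  constructor
  · rw [← Finset.card_map ⟨fun o => (⟨e o, h2 o⟩ : ((Z : Set (Vx Nd X W))ᶜ : Set _)),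
      fun _ _ h => h1 (congrArg Subtype.val h)⟩]
    refine SimpleGraph.IsIndepSet.card_le_indepNum fun a ha b hb _ => ?_
    obtain ⟨o, -, rfl⟩ := Finset.mem_map.1 ha
    obtain ⟨o', -, rfl⟩ := Finset.mem_map.1 hb
    exact h3 o o'
  · rw [← Finset.card_map ⟨e, h1⟩]
    refine SimpleGraph.IsIndepSet.card_le_indepNum fun a ha b hb _ => ?_
    obtain ⟨o, -, rfl⟩ := Finset.mem_map.1 ha
    obtain ⟨o', -, rfl⟩ := Finset.mem_map.1 hb
    exact h3 o o'

theorem pack [Fintype Nd] [Fintype X] [Fintype W]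
    (hp : ∀ x w, dem x w → ∃ u v, fs x u ∧ ReflTransGen arc u v ∧ ls w v)
    (hF : Cut arc fs ls dem) (hB : Cut (Function.swap arc) ls fs (Function.swap dem)) :
    ∃ (V : Type) (_ : Fintype V) (G : SimpleGraph V),
      Fintype.card V = Fintype.card Nd * 2 + (Fintype.card X + (Fintype.card W + 4)) ∧
      (∀ S : Finset V, S.card = 3 → G.indepNum ≤ (G.induce (S : Set V)ᶜ).indepNum) ∧
      Fintype.card Nd + 1 ≤ G.indepNum :=
  ⟨Vx Nd X W, inferInstance, gr arc fs ls dem, by simp,
    fun S hS => (up hp).trans (good hF hB S hS.le).le.1, (good hF hB ∅ (by simp)).le.2⟩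

end Pool.Agent.Lib.MP_4d8c35_co.Low
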